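import Mathlib

/-!
# The commutator subgroup `R = [V, P]` when `P / V` is perfect
-/

set_option autoImplicit false

namespace Pool.Agent.H319.F3

open scoped commutatorElement

section
variable {F : Type*} [Group F]

theorem cmul_right (a p q : F) : ⁅a, p * q⁆ = ⁅a, p⁆ * (p * ⁅a, q⁆ * p⁻¹) := by
  simp only [commutatorElement_def]; group

theorem cmul_left (a b p : F) : ⁅a * b, p⁆ = (a * ⁅b, p⁆ * a⁻¹) * ⁅a, p⁆ := by
  simp only [commutatorElement_def]; group

theorem cinv_right (a p : F) : ⁅a, p⁻¹⁆ = p⁻¹ * ⁅a, p⁆⁻¹ * p := by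
  simp only [commutatorElement_def]; group

theorem cinv_left (a p : F) : ⁅a⁻¹, p⁆ = a⁻¹ * ⁅a, p⁆⁻¹ * a := by
  simp only [commutatorElement_def]; group

/-- if `P` is finitely generated and `P = V[P, P]` then `R / [R, F]` is finitely generated,
`R = [V, P]` -/
theorem comm_fg (V P : Subgroup F) [V.Normal] [P.Normal] (hVP : V ≤ P) (hP : P.FG)
    (hT : P ≤ V ⊔ ⁅P, P⁆) : ∃ S : Set F, S.Finite ∧ S ⊆ (⁅V, P⁆ : Subgroup F) ∧
      ⁅V, P⁆ ≤ Subgroup.closure S ⊔ ⁅(⁅V, P⁆ : Subgroup F), (⊤ : Subgroup F)⁆ := by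
  classical
  obtain ⟨s, hs⟩ := hP
  have hsP : ∀ p ∈ s, p ∈ P := fun p hp => by rw [← hs]; exact Subgroup.subset_closure hp
  have h1 : ∀ p ∈ s, ∃ v ∈ V, ∃ c ∈ (⁅P, P⁆ : Subgroup F), v * c = p := by
    intro p hp
    have : p ∈ ((V ⊔ ⁅P, P⁆ : Subgroup F) : Set F) := hT (hsP p hp)
    rw [Subgroup.normal_mul] at this
    obtain ⟨v, hv, c, hc, h⟩ := Set.mem_mul.1 this
    exact ⟨v, hv, c, hc, h⟩
  choose! v hv c hc hvc using h1
  let R : Subgroup F := ⁅V, P⁆
  let D : Subgroup F := ⁅R, (⊤ : Subgroup F)⁆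
  have hD : D.Normal := inferInstance
  let S : Set F := Set.image2 (fun a b => ⁅v a, v b⁆) s s
  let π : F →* F ⧸ D := QuotientGroup.mk' D
  have hcen : ∀ r ∈ R, ∀ x : F, π x * π r = π r * π x := by
    intro r hr x
    have h2 : ⁅r, x⁆ ∈ D := Subgroup.commutator_mem_commutator hr (Subgroup.mem_top x)
    have h3 : π ⁅r, x⁆ = 1 := (QuotientGroup.eq_one_iff _).2 h2
    rw [map_commutatorElement, commutatorElement_def] at h3
    have h4 := mul_inv_eq_one.1 h3
    rw [mul_inv_eq_iff_eq_mul] at h4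
    exact h4.symm
  have hcj : ∀ r ∈ R, ∀ x : F, π (x * r * x⁻¹) = π r := by
    intro r hr x
    rw [map_mul, map_mul, hcen r hr x, map_inv, mul_inv_cancel_right]
  have hr1 : ∀ a ∈ V, ∀ p ∈ P, π (⁅a, p⁆) = π (⁅a, p⁆) ∧ ⁅a, p⁆ ∈ R := fun a ha p hp =>
    ⟨rfl, Subgroup.commutator_mem_commutator ha hp⟩
  have hr2 : ∀ a ∈ V, ∀ p ∈ P, ⁅p, a⁆ ∈ R := fun a ha p hp => by
    have h2 := R.inv_mem (hr1 a ha p hp).2
    rwa [commutatorElement_inv] at h2
  -- `[V, [P, P]]` dies
  have key : ∀ a ∈ V, ∀ q ∈ (⁅P, P⁆ : Subgroup F), π ⁅a, q⁆ = 1 := by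
    intro a ha
    let T : Subgroup F :=
      { carrier := {q | q ∈ P ∧ π ⁅a, q⁆ = 1}
        mul_mem' := by
          rintro x y ⟨hx, hx1⟩ ⟨hy, hy1⟩
          refine ⟨P.mul_mem hx hy, ?_⟩
          rw [cmul_right, map_mul, hcj _ (hr1 a ha y hy).2, hx1, hy1, one_mul]
        one_mem' := ⟨P.one_mem, by rw [commutatorElement_one_right, map_one]⟩
        inv_mem' := by
          rintro x ⟨hx, hx1⟩
          refine ⟨P.inv_mem hx, ?_⟩
          rw [cinv_right, map_mul, map_mul, map_inv π ⁅a, x⁆, hx1, inv_one, mul_one, ← map_mul,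
            inv_mul_cancel, map_one] }
    have hle : ⁅P, P⁆ ≤ T := by
      rw [Subgroup.commutator_le]
      intro x hx y hy
      refine ⟨Subgroup.commutator_le_left P P (Subgroup.commutator_mem_commutator hx hy), ?_⟩
      have hh : ∀ x ∈ P, ∀ y ∈ P, π ⁅a, x * y⁆ = π ⁅a, x⁆ * π ⁅a, y⁆ := by
        intro x hx y hy
        rw [cmul_right, map_mul, hcj _ (hr1 a ha y hy).2]
      have hi : ∀ x ∈ P, π ⁅a, x⁻¹⁆ = (π ⁅a, x⁆)⁻¹ := by
        intro x hx
        have h2 := hh x⁻¹ (P.inv_mem hx) x hx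
        rw [inv_mul_cancel, commutatorElement_one_right, map_one] at h2
        exact eq_inv_of_mul_eq_one_left h2.symm
      rw [commutatorElement_def x y, hh _ (P.mul_mem (P.mul_mem hx hy) (P.inv_mem hx)) _
        (P.inv_mem hy), hh _ (P.mul_mem hx hy) _ (P.inv_mem hx), hh x hx y hy, hi x hx, hi y hy]
      rw [hcen _ (hr1 a ha y hy).2 ⁅a, x⁆]
      group
    exact fun q hq => (hle hq).2
  let C : Subgroup (F ⧸ D) := Subgroup.closure (π '' S)
  have hS1 : ∀ p ∈ s, ∀ q ∈ s, π ⁅v p, v q⁆ ∈ C := fun p hp q hq =>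
    Subgroup.subset_closure ⟨_, ⟨p, hp, q, hq, rfl⟩, rfl⟩
  -- second variable in `V`
  have k1 : ∀ q ∈ s, ∀ a ∈ P, π ⁅a, v q⁆ ∈ C := by
    intro q hq a ha
    rw [← hs] at ha
    have hall : a ∈ P ∧ π ⁅a, v q⁆ ∈ C := by
      induction ha using Subgroup.closure_induction with
      | mem p hp =>
        refine ⟨hsP p hp, ?_⟩
        have e : π ⁅p, v q⁆ = π ⁅v p, v q⁆ := by
          conv_lhs => rw [← hvc p hp]
          have h2 : π ⁅c p, v q⁆ = 1 := by
            rw [← commutatorElement_inv, map_inv, key _ (hv q hq) _ (hc p hp), inv_one]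
          rw [cmul_left, map_mul, map_mul, map_mul, h2, mul_one, ← map_mul, mul_inv_cancel,
            map_one, one_mul]
        rw [e]
        exact hS1 p hp q hq
      | one => exact ⟨P.one_mem, by rw [commutatorElement_one_left, map_one]; exact C.one_mem⟩
      | mul x y _ _ ihx ihy =>
        refine ⟨P.mul_mem ihx.1 ihy.1, ?_⟩
        rw [cmul_left, map_mul, hcj _ (hr2 _ (hv q hq) y ihy.1)]
        exact C.mul_mem ihy.2 ihx.2
      | inv x _ ihx =>
        refine ⟨P.inv_mem ihx.1, ?_⟩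
        have h3 : π ⁅x⁻¹, v q⁆ = (π ⁅x, v q⁆)⁻¹ := by
          rw [cinv_left]
          have := hcj _ (R.inv_mem (hr2 _ (hv q hq) x ihx.1)) x⁻¹
          rw [inv_inv] at this
          rw [this, map_inv]
        rw [h3]
        exact C.inv_mem ihx.2
    exact hall.2
  have k2 : ∀ a ∈ V, ∀ p ∈ P, π ⁅a, p⁆ ∈ C := by
    intro a ha p hp
    rw [← hs] at hp
    have hall : p ∈ P ∧ π ⁅a, p⁆ ∈ C := by
      induction hp using Subgroup.closure_induction with
      | mem p hp =>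
        refine ⟨hsP p hp, ?_⟩
        have e : π ⁅a, p⁆ = π ⁅a, v p⁆ := by
          conv_lhs => rw [← hvc p hp]
          rw [cmul_right, map_mul, map_mul, map_mul, key a ha _ (hc p hp), mul_one, ← map_mul,
            mul_inv_cancel, map_one, mul_one]
        rw [e]
        exact k1 p hp a (hVP ha)
      | one => exact ⟨P.one_mem, by rw [commutatorElement_one_right, map_one]; exact C.one_mem⟩
      | mul x y _ _ ihx ihy =>
        refine ⟨P.mul_mem ihx.1 ihy.1, ?_⟩
        rw [cmul_right, map_mul, hcj _ (hr1 a ha y ihy.1).2]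
        exact C.mul_mem ihx.2 ihy.2
      | inv x _ ihx =>
        refine ⟨P.inv_mem ihx.1, ?_⟩
        have h3 : π ⁅a, x⁻¹⁆ = (π ⁅a, x⁆)⁻¹ := by
          rw [cinv_right]
          have := hcj _ (R.inv_mem (hr1 a ha x ihx.1).2) x⁻¹
          rw [inv_inv] at this
          rw [this, map_inv]
        rw [h3]
        exact C.inv_mem ihx.2
    exact hall.2
  refine ⟨S, (Set.Finite.image2 _ s.finite_toSet s.finite_toSet), ?_, ?_⟩
  · rintro _ ⟨p, hp, q, hq, rfl⟩
    exact (hr1 _ (hv p hp) _ (hVP (hv q hq))).2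
  · have hRC : ∀ r ∈ R, π r ∈ C := by
      have : R ≤ C.comap π := by
        rw [Subgroup.commutator_le]
        intro a ha p hp
        exact k2 a ha p hp
      exact fun r hr => this hr
    intro r hr
    have h6 := hRC r hr
    have h7 : C = (Subgroup.closure S).map π := (MonoidHom.map_closure π S).symm
    rw [h7] at h6
    obtain ⟨x, hx, hxr⟩ := h6
    have h8 : x⁻¹ * r ∈ D := by
      rw [← QuotientGroup.eq_one_iff]
      change π (x⁻¹ * r) = 1
      rw [map_mul, map_inv, hxr, inv_mul_cancel]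
    have h9 : r = x * (x⁻¹ * r) := by group
    rw [h9]
    exact Subgroup.mul_mem _ (Subgroup.mem_sup_left hx) (Subgroup.mem_sup_right h8)

end

end Pool.Agent.H319.F3
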