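import Pool.Agent.H319.F3.Lim
import Pool.Agent.H319.F3.Comm

/-!
# The law, the verbal subgroup `V` and `P = V[F, F]`
-/

set_option autoImplicit false

namespace Pool.Agent.H319.F3

open Pool.Agent.TH54.BU Pool.Agent.Y45.MON Pool.Agent.Y872.MON
open scoped commutatorElement

theorem map_vv {r : ℕ} (w : WP r) {G G' : Type} [Group G] [Group G'] (φ : G →* G') (j : Fin r)
    (a b : G) : φ (vv w j a b) = vv w j (φ a) (φ b) := by
  unfold vv
  rw [map_Wj, map_X1]

theorem vv_comm {r : ℕ} (w : WP r) (j : Fin r) {G : Type} [Group G] (a b : G)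
    (h : a * b = b * a) : vv w j a b = a ^ w.δ j * a⁻¹ := by
  have h1 : Commute a b := h
  have h2 : Commute a (P0 w.M1 a b) := by
    unfold P0
    exact (((Commute.refl a).mul_right h1).mul_right (Commute.pow_right (Commute.refl a) _)).mul_right
      h1.inv_right
  have h3 : X1 w.M1 w.m2 a b = 1 := by
    unfold X1
    rw [(h2.pow_right w.m2).eq, mul_inv_cancel_right, mul_inv_cancel]
  unfold vv Wj
  rw [h3]
  simp only [one_pow, mul_one]
  have h4 : Commute b a⁻¹ := h1.symm.inv_right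
  rw [mul_assoc (a ^ w.δ j) b a⁻¹, h4.eq, ← mul_assoc, mul_inv_cancel_right]

/-- the switch -/
def uu (w : WP 3) (s t : ℤ) {G : Type} [Group G] (a b : G) : G :=
  vv w 0 a b ^ s * vv w 1 a b ^ t

/-- the law -/
def LL (w : WP 3) (s t : ℤ) {G : Type} [Group G] (x y : G) : G :=
  uu w s t (x * y * x⁻¹ * y⁻¹) (vv w 2 (x * y * x⁻¹ * y⁻¹) (vv w 2 x y))

theorem map_uu (w : WP 3) (s t : ℤ) {G G' : Type} [Group G] [Group G'] (φ : G →* G')
    (a b : G) : φ (uu w s t a b) = uu w s t (φ a) (φ b) := by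
  unfold uu
  rw [map_mul, map_zpow, map_zpow, map_vv, map_vv]

theorem map_LL (w : WP 3) (s t : ℤ) {G G' : Type} [Group G] [Group G'] (φ : G →* G')
    (a b : G) : φ (LL w s t a b) = LL w s t (φ a) (φ b) := by
  unfold LL
  rw [map_uu, map_vv, map_vv]
  simp only [map_mul, map_inv]

theorem uu_comm {w : WP 3} (hw : w.δ = ![2, 2, 1]) {s t : ℤ} (hst : s + t = 1) {G : Type}
    [Group G] (a b : G) (h : a * b = b * a) : uu w s t a b = a := by
  unfold uu
  rw [vv_comm w 0 a b h, vv_comm w 1 a b h, hw]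
  simp only [Matrix.cons_val_zero, Matrix.cons_val_one]
  have e : a ^ 2 * a⁻¹ = a := by group
  rw [e, ← zpow_add, hst, zpow_one]

theorem vv2_comm {w : WP 3} (hw : w.δ = ![2, 2, 1]) {G : Type}
    [Group G] (a b : G) (h : a * b = b * a) : vv w 2 a b = 1 := by
  rw [vv_comm w 2 a b h, hw]
  have e : (![2, 2, 1] : Fin 3 → ℕ) 2 = 1 := rfl
  rw [e, pow_one, mul_inv_cancel]

theorem LL_met {w : WP 3} (hw : w.δ = ![2, 2, 1]) {s t : ℤ} (hst : s + t = 1) {G : Type}
    [Group G] (x y : G)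
    (h : (x * y * x⁻¹ * y⁻¹) * vv w 2 x y = vv w 2 x y * (x * y * x⁻¹ * y⁻¹)) :
    LL w s t x y = x * y * x⁻¹ * y⁻¹ := by
  unfold LL
  rw [vv2_comm hw _ _ h]
  exact uu_comm hw hst _ _ (by rw [mul_one, one_mul])

/-- the orders -/
def eo (p q : ℕ) : Fin 3 → Unit → Unit → ℕ := fun j _ _ => if j = 1 then q else p

theorem LL_lim {w : WP 3} {p q : ℕ} {s t : ℤ} (hs : (p : ℤ) ∣ s)
    (ht : (q : ℤ) ∣ t) (hp : p ≠ 1) {L : Type} [Group L] {Φ : Fin 3 → Unit → Unit → Unit}
    {col : L → Unit} {rk : L → ℕ} (M : MonP w (p * q) Φ (eo p q) L col rk) (x y : L) :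
    LL w s t x y = 1 := by
  by_cases hxy : x * y = y * x
  · have e1 : x * y * x⁻¹ * y⁻¹ = 1 := by rw [hxy]; group
    unfold LL
    rw [e1]
    unfold uu
    rw [vv_comm w 0 1 _ (by rw [mul_one, one_mul]), vv_comm w 1 1 _ (by rw [mul_one, one_mul])]
    simp
  · have h1 := M.cmt 2 x y hxy
    have hc : x * y * x⁻¹ * y⁻¹ ≠ 1 := by
      intro h
      rw [h] at h1
      exact h1 (by rw [mul_one, one_mul])
    unfold LL
    generalize x * y * x⁻¹ * y⁻¹ = c at *
    generalize vv w 2 x y = d at *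
    have h2 := (M.rk1 2 c d h1).1
    have h3 := M.ord 2 c d h1
    have he : vv w 2 c d ≠ 1 := by
      intro h
      rw [h, orderOf_one] at h3
      exact hp h3.symm
    have h4 : c * vv w 2 c d ≠ vv w 2 c d * c := by
      intro h
      have := M.rkc _ _ hc he h
      omega
    unfold uu
    have h5 := M.ord 0 c _ h4
    have h6 := M.ord 1 c _ h4
    have e5 : vv w 0 c (vv w 2 c d) ^ s = 1 := by
      rw [← orderOf_dvd_iff_zpow_eq_one, h5]
      exact hs
    have e6 : vv w 1 c (vv w 2 c d) ^ t = 1 := by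
      rw [← orderOf_dvd_iff_zpow_eq_one, h6]
      exact ht
    rw [e5, e6, one_mul]

/-- the verbal subgroup -/
def VV (w : WP 3) (s t : ℤ) (N : ℕ) (F : Type) [Group F] : Subgroup F :=
  Subgroup.normalClosure ({h | ∃ x : F, h = x ^ N} ∪ {h | ∃ x y : F, h = LL w s t x y})

instance (w : WP 3) (s t : ℤ) (N : ℕ) (F : Type) [Group F] : (VV w s t N F).Normal :=
  Subgroup.normalClosure_normal

theorem pow_mem_VV (w : WP 3) (s t : ℤ) (N : ℕ) {F : Type} [Group F] (x : F) :
    x ^ N ∈ VV w s t N F := Subgroup.subset_normalClosure (Or.inl ⟨x, rfl⟩)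

theorem LL_mem_VV (w : WP 3) (s t : ℤ) (N : ℕ) {F : Type} [Group F] (x y : F) :
    LL w s t x y ∈ VV w s t N F := Subgroup.subset_normalClosure (Or.inr ⟨x, y, rfl⟩)

theorem map_VV (w : WP 3) (s t : ℤ) (N : ℕ) {F F' : Type} [Group F] [Group F'] (φ : F →* F') :
    (VV w s t N F).map φ ≤ VV w s t N F' := by
  rw [Subgroup.map_le_iff_le_comap]
  apply Subgroup.normalClosure_le_normal
  rintro _ (⟨x, rfl⟩ | ⟨x, y, rfl⟩)
  · rw [SetLike.mem_coe, Subgroup.mem_comap, map_pow]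
    exact pow_mem_VV w s t N _
  · rw [SetLike.mem_coe, Subgroup.mem_comap, map_LL]
    exact LL_mem_VV w s t N _ _

theorem VV_le_ker {w : WP 3} {s t : ℤ} {N : ℕ} {F L : Type} [Group F] [Group L] (φ : F →* L)
    (h1 : ∀ x : L, x ^ N = 1) (h2 : ∀ x y : L, LL w s t x y = 1) : VV w s t N F ≤ φ.ker := by
  apply Subgroup.normalClosure_le_normal
  rintro _ (⟨x, rfl⟩ | ⟨x, y, rfl⟩)
  · rw [SetLike.mem_coe, MonoidHom.mem_ker, map_pow, h1]
  · rw [SetLike.mem_coe, MonoidHom.mem_ker, map_LL, h2]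

/-- `P = V[F, F]` -/
def PP (w : WP 3) (s t : ℤ) (N : ℕ) (F : Type) [Group F] : Subgroup F :=
  VV w s t N F ⊔ ⁅(⊤ : Subgroup F), (⊤ : Subgroup F)⁆

instance (w : WP 3) (s t : ℤ) (N : ℕ) (F : Type) [Group F] : (PP w s t N F).Normal := by
  unfold PP; infer_instance

theorem map_PP (w : WP 3) (s t : ℤ) (N : ℕ) {F F' : Type} [Group F] [Group F'] (φ : F →* F') :
    (PP w s t N F).map φ ≤ PP w s t N F' := by
  unfold PP
  rw [Subgroup.map_sup, Subgroup.map_commutator]
  exact sup_le_sup (map_VV w s t N φ) (Subgroup.commutator_mono le_top le_top)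

theorem VV_le_PP (w : WP 3) (s t : ℤ) (N : ℕ) (F : Type) [Group F] :
    VV w s t N F ≤ PP w s t N F := le_sup_left

theorem PP_le {w : WP 3} (hw : w.δ = ![2, 2, 1]) {s t : ℤ} (hst : s + t = 1) (N : ℕ)
    (F : Type) [Group F] :
    PP w s t N F ≤ VV w s t N F ⊔ ⁅PP w s t N F, PP w s t N F⁆ := by
  let U : Subgroup F := VV w s t N F ⊔ ⁅PP w s t N F, PP w s t N F⁆
  have hU : U.Normal := by unfold U; infer_instance
  show PP w s t N F ≤ U
  refine sup_le le_sup_left ?_
  rw [Subgroup.commutator_le]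
  intro x _ y _
  have hcP : ∀ a b : F, ⁅a, b⁆ ∈ PP w s t N F := fun a b =>
    Subgroup.mem_sup_right (Subgroup.commutator_mem_commutator (Subgroup.mem_top _)
      (Subgroup.mem_top _))
  -- `vv w 2 x y` is in the commutator subgroup
  have hd : vv w 2 x y ∈ PP w s t N F := by
    have : vv w 2 x y ∈ commutator F := by
      rw [← Abelianization.ker_of, MonoidHom.mem_ker, map_vv]
      exact vv2_comm hw _ _ (mul_comm _ _)
    exact Subgroup.mem_sup_right this
  let ψ := QuotientGroup.mk' U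
  have h1 : ψ ⁅⁅x, y⁆, vv w 2 x y⁆ = 1 := (QuotientGroup.eq_one_iff _).2
    (Subgroup.mem_sup_right (Subgroup.commutator_mem_commutator (hcP x y) hd))
  have h2 : ψ (LL w s t x y) = 1 := (QuotientGroup.eq_one_iff _).2
    (Subgroup.mem_sup_left (LL_mem_VV w s t N x y))
  rw [map_LL, LL_met hw hst] at h2
  · rw [← QuotientGroup.eq_one_iff]
    change ψ ⁅x, y⁆ = 1
    rw [commutatorElement_def, map_mul, map_mul, map_mul, map_inv, map_inv]
    exact h2
  · rw [commutatorElement_def ⁅x, y⁆, map_mul, map_mul, map_mul, map_inv, map_inv] at h1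
    have h4 := mul_inv_eq_one.1 h1
    rw [mul_inv_eq_iff_eq_mul, map_vv, commutatorElement_def, map_mul, map_mul, map_mul,
      map_inv, map_inv] at h4
    exact h4

end Pool.Agent.H319.F3
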