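import Pool.Agent.H319.F3.Seq

/-!
# The limit group and the approximations
-/

set_option autoImplicit false

namespace Pool.Agent.H319.F3

open Pool.Agent.TH54.BU Pool.Agent.Y45.MON Pool.Agent.Y872.MON

section

variable {r : ℕ} {w : WP r} {R0 N : ℕ} {C : Type} {Φ : Fin r → C → C → C}
  {ε : Fin r → C → C → ℕ} {G : ℕ → Type} [∀ n, Group (G n)] {H : ∀ n, GH (G n)}
  {f : ∀ n, G n →* G (n + 1)} {col : ∀ n, G n → C} {Mk : ∀ n, G n → Fin r → C → C → Prop}
  {Xs : ∀ n, Set (G n)} {L : Type} [Group L] {π : ∀ n, G n →* L}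

/-- the composite maps -/
def fc (f : ∀ n, G n →* G (n + 1)) : ∀ n, G 0 →* G n
  | 0 => MonoidHom.id _
  | n + 1 => (f n).comp (fc f n)

theorem fc_succ (n : ℕ) (g : G 0) : fc f (n + 1) g = f n (fc f n g) := rfl

theorem fc_sur (hf : ∀ n, Function.Surjective (f n)) (n : ℕ) : Function.Surjective (fc f n) := by
  induction n with
  | zero => exact fun x => ⟨x, rfl⟩
  | succ n ih =>
    intro y
    obtain ⟨x, rfl⟩ := hf n y
    obtain ⟨z, rfl⟩ := ih x
    exact ⟨z, rfl⟩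

theorem fc_pi (D : LD w R0 N Φ ε G H f col Mk Xs L π) (n : ℕ) (g : G 0) :
    π n (fc f n g) = π 0 g := by
  induction n with
  | zero => rfl
  | succ n ih => rw [fc_succ, D.cmp, ih]

theorem fc_len (D : LD w R0 N Φ ε G H f col Mk Xs L π) (n : ℕ) (g : G 0) :
    (H n).len (fc f n g) ≤ max 1 ((H 0).len g - n) := by
  induction n with
  | zero => exact le_max_of_le_right le_rfl
  | succ n ih =>
    have h1 := (D.sq.st n).len (fc f n g)
    rw [fc_succ]
    omega

theorem dies_fc (n : ℕ) (g : G n) (h : Dies f n g) :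
    ∀ g0 : G 0, fc f n g0 = g → ∃ m, fc f m g0 = 1 := by
  induction h with
  | one n => exact fun g0 h0 => ⟨n, h0⟩
  | step n g _ ih =>
    intro g0 h0
    exact ih g0 (by rw [fc_succ, h0])

/-- there are noncommuting pairs of large rank -/
theorem rk_large (hr : 0 < r) (D : LD w R0 N Φ ε G H f col Mk Xs L π) (k : ℕ) :
    ∃ A B : L, A * B ≠ B * A ∧ k ≤ rk π B := by
  have M := D.monP
  induction k with
  | zero =>
    obtain ⟨x, y, -, h⟩ := M.gen
    exact ⟨x, y, h, Nat.zero_le _⟩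
  | succ k ih =>
    obtain ⟨A, B, h1, h2⟩ := ih
    let j : Fin r := ⟨0, hr⟩
    have h3 := M.rk1 j A B h1
    have h4 := M.ord j A B h1
    refine ⟨A, vv w j A B, ?_, by omega⟩
    intro h5
    have hA : A ≠ 1 := by rintro rfl; simp at h1
    have hB : vv w j A B ≠ 1 := by
      intro h6
      rw [h6, orderOf_one] at h4
      exact (D.hε _ _ _).2 h4.symm
    have h7 := M.rkc A _ hA hB h5
    omega

/-- every group of the sequence has elements of infinite order -/
theorem exists_inf (hr : 0 < r) (D : LD w R0 N Φ ε G H f col Mk Xs L π) (n : ℕ) :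
    ∃ x : G n, ¬ IsOfFinOrder x := by
  by_contra hcon
  push Not at hcon
  obtain ⟨A, B, -, h⟩ := rk_large hr D (n + 1)
  obtain ⟨x, rfl⟩ := D.sur n B
  have := rk_le (π := π) (hcon x)
  omega

/-- powers of an element of infinite order have small centralizers -/
theorem approx (hr : 0 < r) (D : LD w R0 N Φ ε G H f col Mk Xs L π) {K B T : ℕ} (hK : 1 ≤ K)
    (hT : 1 ≤ T) (hst : ∀ n, (H n).Stab T ∧ (H n).Acy K B) (c d : G 0)
    (hcd : π 0 c * π 0 d ≠ π 0 d * π 0 c) :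
    ∃ n1 : ℕ, ∀ n, n1 ≤ n → ∃ x : G n,
      ¬ (x ^ N * fc f n c = fc f n c * x ^ N ∧ x ^ N * fc f n d = fc f n d * x ^ N) := by
  refine ⟨(H 0).len c + (H 0).len d, ?_⟩
  intro n hn
  obtain ⟨x, hx⟩ := exists_inf hr D n
  refine ⟨x, ?_⟩
  rintro ⟨h1, h2⟩
  have lc : (H n).len (fc f n c) ≤ K := by
    have := fc_len D n c
    omega
  have ld : (H n).len (fc f n d) ≤ K := by
    have := fc_len D n d
    omega
  have hN := D.N0
  have hxN : ¬ IsOfFinOrder (x ^ N) := by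
    intro h
    obtain ⟨m, hm, h3⟩ := isOfFinOrder_iff_pow_eq_one.1 h
    rw [← pow_mul] at h3
    exact hx (isOfFinOrder_iff_pow_eq_one.2 ⟨N * m, Nat.mul_pos (Nat.pos_of_ne_zero hN) hm, h3⟩)
  have h4 := (hst n).1 (x ^ N) hxN (T * B)
  have h5 : B ≤ (H n).len ((x ^ N) ^ (T * B)) := Nat.le_of_mul_le_mul_left h4 hT
  have hc : Commute ((x ^ N) ^ (T * B)) (fc f n c) := Commute.pow_left h1 _
  have hd : Commute ((x ^ N) ^ (T * B)) (fc f n d) := Commute.pow_left h2 _
  have e1 : ((x ^ N) ^ (T * B))⁻¹ * fc f n c * (x ^ N) ^ (T * B) = fc f n c := by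
    rw [mul_assoc, ← hc.eq, inv_mul_cancel_left]
  have e2 : ((x ^ N) ^ (T * B))⁻¹ * fc f n d * (x ^ N) ^ (T * B) = fc f n d := by
    rw [mul_assoc, ← hd.eq, inv_mul_cancel_left]
  have h6 := ((hst n).2 _ h5 (fc f n c) ⟨lc, by rw [e1]; exact lc⟩).2 (fc f n d)
    ⟨ld, by rw [e2]; exact ld⟩
  apply hcd
  rw [← fc_pi D n c, ← fc_pi D n d, ← map_mul, h6, map_mul]

end

end Pool.Agent.H319.F3
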