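import Mathlib

/-!
# Approximations and finite presentability
-/

set_option autoImplicit false

namespace Pool.Agent.H319.F3

/-- a quotient `F / R` which is the limit of proper approximations is not finitely presented -/
theorem not_fp {k : ℕ} (R : Subgroup (FreeGroup (Fin k))) [R.Normal]
    (K : ℕ → Subgroup (FreeGroup (Fin k))) (hKn : ∀ n, (K n).Normal)
    (mono : ∀ n, K n ≤ K (n + 1)) (hex : ∀ r ∈ R, ∃ n, r ∈ K n) (hne : ∀ n, ¬ R ≤ K n) :
    ¬ ∃ (n : ℕ) (f : FreeGroup (Fin n) →* (FreeGroup (Fin k) ⧸ R)),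
      Function.Surjective f ∧ ∃ S : Finset (FreeGroup (Fin n)),
        f.ker = Subgroup.normalClosure (S : Set (FreeGroup (Fin n))) := by
  classical
  rintro ⟨n, f, hf, S, hS⟩
  have hmono : Monotone K := monotone_nat_of_le_succ mono
  have hmk : ∀ g : FreeGroup (Fin k) ⧸ R, ((Quotient.out g : FreeGroup (Fin k)) :
      FreeGroup (Fin k) ⧸ R) = g := fun g => Quotient.out_eq' g
  let g : FreeGroup (Fin n) →* FreeGroup (Fin k) :=
    FreeGroup.lift fun i => Quotient.out (f (FreeGroup.of i))
  have hg : ∀ x, ((g x : FreeGroup (Fin k)) : FreeGroup (Fin k) ⧸ R) = f x := by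
    have : (QuotientGroup.mk' R).comp g = f := by
      ext i
      simp only [MonoidHom.comp_apply, g, FreeGroup.lift_apply_of]
      exact hmk _
    intro x
    exact DFunLike.congr_fun this x
  choose u hu using fun j : Fin k => hf ((FreeGroup.of j : FreeGroup (Fin k)) :
    FreeGroup (Fin k) ⧸ R)
  have h1 : ∀ j : Fin k, ∃ m, (FreeGroup.of j)⁻¹ * g (u j) ∈ K m := fun j => hex _ (by
    rw [← QuotientGroup.eq_one_iff, QuotientGroup.mk_mul, QuotientGroup.mk_inv, hg, hu,
      inv_mul_cancel])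
  choose m hm using h1
  have h2 : ∀ s ∈ S, ∃ m, g s ∈ K m := fun s hs => hex _ (by
    rw [← QuotientGroup.eq_one_iff, hg]
    have : s ∈ f.ker := by rw [hS]; exact Subgroup.subset_normalClosure hs
    exact this)
  choose! m' hm' using h2
  let M := (Finset.univ.sup m) ⊔ (S.sup m')
  have e1 : ∀ j, (FreeGroup.of j)⁻¹ * g (u j) ∈ K M := fun j =>
    hmono (le_sup_of_le_left (Finset.le_sup (Finset.mem_univ j))) (hm j)
  have e2 : ∀ s ∈ S, g s ∈ K M := fun s hs =>
    hmono (le_sup_of_le_right (Finset.le_sup hs)) (hm' s hs)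
  apply hne M
  have hn := hKn M
  let ψ : FreeGroup (Fin n) →* FreeGroup (Fin k) ⧸ K M := (QuotientGroup.mk' (K M)).comp g
  have h3 : f.ker ≤ ψ.ker := by
    rw [hS]
    apply Subgroup.normalClosure_le_normal
    intro s hs
    exact (QuotientGroup.eq_one_iff _).2 (e2 s hs)
  let θ : FreeGroup (Fin k) →* FreeGroup (Fin n) := FreeGroup.lift u
  have h4 : f.comp θ = QuotientGroup.mk' R := by
    ext j
    simp only [MonoidHom.comp_apply, θ, FreeGroup.lift_apply_of]
    exact hu j
  have h5 : ψ.comp θ = QuotientGroup.mk' (K M) := by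
    ext j
    simp only [MonoidHom.comp_apply, θ, FreeGroup.lift_apply_of, ψ]
    have := (QuotientGroup.eq_one_iff (N := K M) _).2 (e1 j)
    rw [QuotientGroup.mk_mul, QuotientGroup.mk_inv] at this
    exact (inv_mul_eq_one.1 this).symm
  intro r hr
  have h6 : θ r ∈ f.ker := by
    rw [MonoidHom.mem_ker]
    have := DFunLike.congr_fun h4 r
    rw [MonoidHom.comp_apply] at this
    rw [this]
    exact (QuotientGroup.eq_one_iff _).2 hr
  have h7 := h3 h6
  rw [MonoidHom.mem_ker] at h7
  have h8 := DFunLike.congr_fun h5 r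
  rw [MonoidHom.comp_apply, h7] at h8
  exact (QuotientGroup.eq_one_iff _).1 h8.symm

end Pool.Agent.H319.F3
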