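import Pool.Agent.H319.F3.Law
import Pool.Agent.H319.F3.Hopf
import Pool.Agent.H319.F3.NotFP

/-!
# The relatively free group `F / [V, P]` of rank two
-/

set_option autoImplicit false

namespace Pool.Agent.H319.F3

open Pool.Agent.TH54.BU Pool.Agent.Y45.MON Pool.Agent.Y872.MON
open scoped commutatorElement

theorem PP_fg (w : WP 3) (s t : ℤ) {N : ℕ} (hN : 0 < N) (F : Type) [Group F] [Group.FG F] :
    (PP w s t N F).FG := by
  let P := PP w s t N F
  let inst : CommGroup (F ⧸ P) :=
    { (inferInstance : Group (F ⧸ P)) with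
      mul_comm := by
        intro a b
        induction a using QuotientGroup.induction_on with
        | H a =>
          induction b using QuotientGroup.induction_on with
          | H b =>
            rw [← QuotientGroup.mk_mul, ← QuotientGroup.mk_mul, QuotientGroup.eq]
            have h1 : ⁅b⁻¹, a⁻¹⁆ ∈ P := Subgroup.mem_sup_right
              (Subgroup.commutator_mem_commutator (Subgroup.mem_top _) (Subgroup.mem_top _))
            have e : (a * b)⁻¹ * (b * a) = ⁅b⁻¹, a⁻¹⁆ := by
              rw [commutatorElement_def]; group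
            rw [e]
            exact h1 }
  have hfin : Finite (F ⧸ P) := by
    apply CommGroup.finite_of_fg_isMulTorsion
    intro g
    induction g using QuotientGroup.induction_on with
    | H g =>
      rw [isOfFinOrder_iff_pow_eq_one]
      refine ⟨N, hN, ?_⟩
      rw [← QuotientGroup.mk_pow, QuotientGroup.eq_one_iff]
      exact VV_le_PP w s t N F (pow_mem_VV w s t N g)
  have : P.FiniteIndex := Subgroup.finiteIndex_of_finite_quotient
  exact (Group.fg_iff_subgroup_fg P).1 inferInstance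

theorem main_aux : ∃ R : Subgroup (FreeGroup (Fin 2)), ∃ _ : R.Normal,
    (∀ φ : FreeGroup (Fin 2) →* FreeGroup (Fin 2), R.map φ ≤ R) ∧
    (∃ S : Set (FreeGroup (Fin 2)), S.Finite ∧ S ⊆ R ∧
      R ≤ Subgroup.closure S ⊔ ⁅R, (⊤ : Subgroup (FreeGroup (Fin 2)))⁆) ∧
    ∃ K : ℕ → Subgroup (FreeGroup (Fin 2)), (∀ n, (K n).Normal) ∧
      (∀ n, K n ≤ K (n + 1)) ∧ (∀ r ∈ R, ∃ n, r ∈ K n) ∧ ∀ n, ¬ R ≤ K n := by
  obtain ⟨w, R0, K, B, T, n0, hw, hR0, hK, hT, hn0, hseq⟩ := seqA 3 ![2, 2, 1] (by
    intro j; fin_cases j <;> simp)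
  obtain ⟨p, hp1, hp⟩ := Nat.exists_infinite_primes n0
  obtain ⟨q, hq1, hq⟩ := Nat.exists_infinite_primes (p + 1)
  have hpq : p ≠ q := by omega
  have hprime : ∀ l : ℕ, l.Prime → l ∣ p * q → l = p ∨ l = q := by
    intro l hl hd
    rcases (Nat.Prime.dvd_mul hl).1 hd with h | h
    · exact Or.inl ((Nat.prime_dvd_prime_iff_eq hl hp).1 h)
    · exact Or.inr ((Nat.prime_dvd_prime_iff_eq hl hq).1 h)
  have hge : ∀ l : ℕ, l.Prime → l ∣ p * q → n0 ≤ l := by
    intro l hl hd
    rcases hprime l hl hd with rfl | rfl <;> omega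
  have hN1 : p * q ≠ 1 := by
    intro h
    exact hp.one_lt.ne' (Nat.eq_one_of_mul_eq_one_right h)
  have hε : ∀ (j : Fin 3) (c c' : Unit), eo p q j c c' ∣ p * q ∧ eo p q j c c' ≠ 1 := by
    intro j _ _
    unfold eo
    split_ifs
    · exact ⟨dvd_mul_left _ _, hq.one_lt.ne'⟩
    · exact ⟨dvd_mul_right _ _, hp.one_lt.ne'⟩
  obtain ⟨G, iG, H, f, col, Mk, Xs, hSq, hst⟩ := hseq (p * q) hN1 hge Unit inferInstance
    (fun _ _ _ => ()) (eo p q) hε
  obtain ⟨L, iL, π, p1, p2, p3⟩ := exists_lim f (fun n => (hSq.st n).surj)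
  let D : LD w R0 (p * q) (fun _ _ _ => ()) (eo p q) G H f col Mk Xs L π :=
    ⟨hSq, hR0, fun l hl hd => hn0.trans (hge l hl hd), hε, p1, p2, p3⟩
  have M := D.monP
  -- the exponents
  have hcop : IsCoprime (p : ℤ) (q : ℤ) :=
    Nat.isCoprime_iff_coprime.2 ((Nat.coprime_primes hp hq).2 hpq)
  obtain ⟨a, b, hab⟩ := hcop
  let s : ℤ := a * p
  let t : ℤ := b * q
  have hs : (p : ℤ) ∣ s := dvd_mul_left _ _
  have ht : (q : ℤ) ∣ t := dvd_mul_left _ _
  have hst1 : s + t = 1 := hab
  let F := FreeGroup (Fin 2)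
  let V := VV w s t (p * q) F
  let P := PP w s t (p * q) F
  let R : Subgroup F := ⁅V, P⁆
  obtain ⟨x0, y0, hgen, hne, -, -⟩ := hSq.gen
  let p0 : F →* G 0 := FreeGroup.lift ![x0, y0]
  have e0 : p0 (FreeGroup.of 0) = x0 := FreeGroup.lift_apply_of
  have e1 : p0 (FreeGroup.of 1) = y0 := FreeGroup.lift_apply_of
  have hp0 : Function.Surjective p0 := by
    rw [← MonoidHom.range_eq_top, eq_top_iff, ← hgen, Subgroup.closure_le]
    intro z hz
    rcases hz with hz | hz
    · exact ⟨FreeGroup.of 0, e0.trans hz.symm⟩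
    · exact ⟨FreeGroup.of 1, e1.trans hz.symm⟩
  let ρ : ∀ n, F →* G n := fun n => (fc f n).comp p0
  have hρ : ∀ n, Function.Surjective (ρ n) := fun n =>
    (fc_sur (fun n => (hSq.st n).surj) n).comp hp0
  have hlaw : V ≤ ((π 0).comp p0).ker :=
    VV_le_ker _ M.exp (fun x y => LL_lim hs ht hp.one_lt.ne' M x y)
  have hN : 0 < p * q := Nat.mul_pos hp.pos hq.pos
  refine ⟨R, inferInstance, ?_, ?_, fun n => (ρ n).ker, ?_, ?_, ?_, ?_⟩
  · intro φ
    show Subgroup.map φ ⁅V, P⁆ ≤ ⁅V, P⁆
    rw [Subgroup.map_commutator]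
    exact Subgroup.commutator_mono (map_VV _ _ _ _ φ) (map_PP _ _ _ _ φ)
  · exact comm_fg V P (VV_le_PP _ _ _ _ _) (PP_fg w s t hN F) (PP_le hw hst1 _ _)
  · intro n
    infer_instance
  · intro n x hx
    rw [MonoidHom.mem_ker] at hx ⊢
    show fc f (n + 1) (p0 x) = 1
    rw [fc_succ]
    change f n (ρ n x) = 1
    rw [hx, map_one]
  · intro x hx
    have h1 : x ∈ V := by
      have : R ≤ V := Subgroup.commutator_le_left V P
      exact this hx
    have h2 : π 0 (p0 x) = 1 := hlaw h1
    obtain ⟨m, hm⟩ := dies_fc 0 (p0 x) (p3 0 _ h2) (p0 x) rfl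
    exact ⟨m, hm⟩
  · intro n hle
    -- two elements of `P`
    let g0 : F := FreeGroup.of 0
    let g1 : F := FreeGroup.of 1
    have e0 : p0 g0 = x0 := e0
    have e1 : p0 g1 = y0 := e1
    have hnc : (π 0 (p0 ⁅g0, g1⁆)) * π 0 (p0 (vv w 2 g0 g1)) ≠
        π 0 (p0 (vv w 2 g0 g1)) * (π 0 (p0 ⁅g0, g1⁆)) := by
      have k3 : π 0 (p0 ⁅g0, g1⁆) = π 0 x0 * π 0 y0 * (π 0 x0)⁻¹ * (π 0 y0)⁻¹ := by
        rw [commutatorElement_def]
        simp only [map_mul, map_inv, e0, e1]
      have k4 : π 0 (p0 (vv w 2 g0 g1)) = vv w 2 (π 0 x0) (π 0 y0) := by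
        rw [map_vv, map_vv, e0, e1]
      rw [k3, k4]
      apply M.cmt 2
      intro h
      -- the generators do not commute in the limit
      obtain ⟨a1, b1, h1, h2⟩ := M.gen
      apply h2
      have hcl : Subgroup.closure {π 0 x0, π 0 y0} = (⊤ : Subgroup L) := by
        rw [← Set.image_pair, ← MonoidHom.map_closure, hgen, ← MonoidHom.range_eq_map,
          MonoidHom.range_eq_top.2 (D.sur 0)]
      have hcomm : ∀ u v : L, u * v = v * u := by
        have k1 : ∀ u ∈ Subgroup.closure {π 0 x0, π 0 y0}, ∀ v ∈ Subgroup.closure {π 0 x0, π 0 y0},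
            u * v = v * u := by
          intro u hu v hv
          refine Subgroup.closure_induction₂ (p := fun u v _ _ => u * v = v * u) ?_ ?_ ?_ ?_ ?_ ?_ ?_ hu hv
          · rintro c d (rfl | rfl) (rfl | rfl)
            · rfl
            · exact h
            · exact h.symm
            · rfl
          · intro c _; rw [one_mul, mul_one]
          · intro c _; rw [one_mul, mul_one]
          · intro c d e _ _ _ h3 h4
            rw [mul_assoc, h4, ← mul_assoc, h3, mul_assoc]
          · intro c d e _ _ _ h3 h4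
            rw [← mul_assoc, h3, mul_assoc, h4, mul_assoc]
          · intro c d _ _ h3
            exact (Commute.inv_left (show Commute c d from h3)).eq
          · intro c d _ _ h3
            exact (Commute.inv_right (show Commute c d from h3)).eq
        rw [hcl] at k1
        exact fun u v => k1 u (Subgroup.mem_top _) v (Subgroup.mem_top _)
      exact hcomm _ _
    obtain ⟨n1, hn1⟩ := approx (by norm_num) D (by omega) hT hst _ _ hnc
    obtain ⟨x, hx⟩ := hn1 (max n n1) (le_max_right _ _)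
    obtain ⟨x', rfl⟩ := hρ _ x
    have hmono : ∀ m, n ≤ m → R ≤ (ρ m).ker := by
      intro m hm
      induction m, hm using Nat.le_induction with
      | base => exact hle
      | succ m hm ih =>
        intro z hz
        have h3 := ih hz
        rw [MonoidHom.mem_ker] at h3 ⊢
        show fc f (m + 1) (p0 z) = 1
        rw [fc_succ]
        change f m (ρ m z) = 1
        rw [h3, map_one]
    have hR := hmono (max n n1) (le_max_left _ _)
    have hcom : ∀ c ∈ P, ρ (max n n1) x' ^ (p * q) * ρ (max n n1) c =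
        ρ (max n n1) c * ρ (max n n1) x' ^ (p * q) := by
      intro c hc
      have h3 : ⁅x' ^ (p * q), c⁆ ∈ R :=
        Subgroup.commutator_mem_commutator (pow_mem_VV w s t (p * q) x') hc
      have h4 := hR h3
      rw [MonoidHom.mem_ker, commutatorElement_def, map_mul, map_mul, map_mul, map_inv, map_inv,
        map_pow] at h4
      have h5 := mul_inv_eq_one.1 h4
      rwa [mul_inv_eq_iff_eq_mul] at h5
    apply hx
    refine ⟨hcom _ ?_, hcom _ ?_⟩
    · exact Subgroup.mem_sup_right (Subgroup.commutator_mem_commutator (Subgroup.mem_top _)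
        (Subgroup.mem_top _))
    · have : vv w 2 g0 g1 ∈ commutator F := by
        rw [← Abelianization.ker_of, MonoidHom.mem_ker, map_vv]
        exact vv2_comm hw _ _ (mul_comm _ _)
      exact Subgroup.mem_sup_right this

/-- the main theorem -/
theorem main : ¬ (∀ W : Set (FreeGroup ℕ),
      (¬ ∃ (n : ℕ) (f : FreeGroup (Fin n) →*
          (FreeGroup (Fin 2) ⧸ Subgroup.normalClosure
            {x : FreeGroup (Fin 2) | ∃ w ∈ W, ∃ φ : FreeGroup ℕ →* FreeGroup (Fin 2), φ w = x})),
          Function.Surjective f ∧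
            ∃ S : Finset (FreeGroup (Fin n)),
              f.ker = Subgroup.normalClosure (S : Set (FreeGroup (Fin n)))) →
      ¬ Module.Finite ℤ
          (groupHomology
            (Rep.trivial ℤ
              (FreeGroup (Fin 2) ⧸ Subgroup.normalClosure
                {x : FreeGroup (Fin 2) | ∃ w ∈ W, ∃ φ : FreeGroup ℕ →* FreeGroup (Fin 2), φ w = x})
              ℤ) 2)) := by
  intro hall
  obtain ⟨R, hRn, hfi, ⟨S, hS1, hS2, hS3⟩, K, k1, k2, k3, k4⟩ := main_aux
  let ι : FreeGroup (Fin 2) →* FreeGroup ℕ := FreeGroup.map fun i : Fin 2 => (i : ℕ)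
  let W : Set (FreeGroup ℕ) := ι '' (R : Set (FreeGroup (Fin 2)))
  let R' : Subgroup (FreeGroup (Fin 2)) := Subgroup.normalClosure
    {x : FreeGroup (Fin 2) | ∃ w ∈ W, ∃ φ : FreeGroup ℕ →* FreeGroup (Fin 2), φ w = x}
  have hR' : R' = R := by
    apply le_antisymm
    · apply Subgroup.normalClosure_le_normal
      rintro _ ⟨_, ⟨r, hr, rfl⟩, φ, rfl⟩
      exact hfi (φ.comp ι) ⟨r, hr, rfl⟩
    · intro r hr
      apply Subgroup.subset_normalClosure
      let φ : FreeGroup ℕ →* FreeGroup (Fin 2) :=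
        FreeGroup.lift fun n => if n = 0 then FreeGroup.of 0 else FreeGroup.of 1
      have hφ : φ.comp ι = MonoidHom.id _ := by
        ext i
        simp only [MonoidHom.comp_apply, ι, FreeGroup.map.of, φ, FreeGroup.lift_apply_of,
          MonoidHom.id_apply]
        fin_cases i <;> simp
      exact ⟨ι r, ⟨r, hr, rfl⟩, φ, DFunLike.congr_fun hφ r⟩
  refine hall W ?_ ?_
  · exact not_fp R' K k1 k2 (by rw [hR']; exact k3) (by rw [hR']; exact k4)
  · exact h2_fg R' S hS1 (by rw [hR']; exact hS2) (by rw [hR']; exact hS3)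

end Pool.Agent.H319.F3
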