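import Pool.Graph.R_seed8.Y45.MON.Main

/-!
# The sequence of groups of the library with the geometric data
-/

set_option autoImplicit false

namespace Pool.Agent.H319.F3

open Pool.Agent.TH54.BU Pool.Agent.Y45.MON Pool.Agent.Y864.MON

/-- the free group of rank two is not abelian -/
theorem of_not_commute {I : Type} {i j : I} (hij : i ≠ j) :
    FreeGroup.of i * FreeGroup.of j ≠ FreeGroup.of j * FreeGroup.of i := by
  classical
  intro h
  let f : FreeGroup I →* Equiv.Perm (Fin 3) :=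
    FreeGroup.lift (fun k => if k = i then Equiv.swap 0 1 else Equiv.swap 1 2)
  have h1 := congrArg f h
  simp only [map_mul, f, FreeGroup.lift_apply_of, if_true, if_neg hij.symm] at h1
  exact absurd h1 (by decide)

/-- existence of the sequence, with the stability and acylindricity data -/
theorem seqA : ∀ (r : ℕ) (δ : Fin r → ℕ), (∀ j, δ j = 1 ∨ δ j = 2) →
  ∃ (w : WP r) (R0 K B T n0 : ℕ), w.δ = δ ∧ 1 ≤ R0 ∧ 500 ≤ K ∧ 1 ≤ T ∧ 3 ≤ n0 ∧
    ∀ N : ℕ, N ≠ 1 → (∀ q : ℕ, q.Prime → q ∣ N → n0 ≤ q) →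
      ∀ (C : Type) (_ : Inhabited C) (Φ : Fin r → C → C → C) (ε : Fin r → C → C → ℕ),
      (∀ j c c', ε j c c' ∣ N ∧ ε j c c' ≠ 1) →
      ∃ (G : ℕ → Type) (_ : ∀ n, Group (G n)) (H : ∀ n, GH (G n)) (f : ∀ n, G n →* G (n + 1))
        (col : ∀ n, G n → C) (Mk : ∀ n, G n → Fin r → C → C → Prop) (Xs : ∀ n, Set (G n)),
        Sq w R0 N Φ ε G H f col Mk Xs ∧ ∀ n, (H n).Stab T ∧ (H n).Acy K B := by
  classical
  have h := aStep
  intro r δ hδ
  obtain ⟨w, R0, K, B, T, n0, hw, hR0, hK, hB, hT, -, hn0, hstep⟩ := h r δ hδ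
  refine ⟨w, R0, K, B, T, n0, hw, hR0, hK, hT, hn0, ?_⟩
  intro N hN hq C iC Φ ε hε
  -- base
  obtain ⟨H0, hD0, hS0, hA0, hlen0⟩ := base (Fin 2)
  have htf : ∀ g : FreeGroup (Fin 2), IsOfFinOrder g → g = 1 := by
    intro g hg
    obtain ⟨m, hm, h⟩ := isOfFinOrder_iff_pow_eq_one.1 hg
    have h1 : g ^ m = 1 ^ m := by rw [h, one_pow]
    exact pow_left_injective hm.ne' h1
  let s0 : Stage (r := r) K B T N C :=
    { G := FreeGroup (Fin 2)
      grp := inferInstance
      H := H0
      col := fun _ => default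
      Mk := fun _ _ _ _ => False
      hD := hD0
      stab := by
        intro g hg m
        calc m ≤ 1 * H0.len (g ^ m) := hS0 g hg m
          _ ≤ T * H0.len (g ^ m) := Nat.mul_le_mul_right _ hT
      acy := hA0 K B hB
      tor := fun g hg => by rw [htf g hg, one_pow]
      ts := fun g hg => ⟨1, fun k => by
        rw [htf g hg]
        simp [H0.len_one]⟩
      colc := fun _ _ => rfl
      mkc := fun _ _ _ _ _ h => h
      mku := fun _ _ _ _ _ _ _ h => h.elim
      mki := fun _ _ _ _ _ _ _ h => h.elim }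
  have hnext : ∀ s : Stage (r := r) K B T N C, ∃ (s' : Stage (r := r) K B T N C)
      (f' : s.G →* s'.G) (Xs' : Set s.G), Rel w R0 Φ ε s s' f' Xs' := by
    intro s
    obtain ⟨G', iG', H', f, Xs, h1, h2, h3, h4, h5⟩ := hstep N hq s.G s.H s.hD s.stab s.acy s.tor
      s.ts (exo N ε s.Mk) (exo_dvd N hN ε hε s.Mk)
      (fun g u => exo_conj N ε s.Mk s.mkc g u) (exo_inv N ε s.Mk)
    exact exists_next Φ s H' f Xs h1 h2 h3 h4 h5
  choose nx fx Xx hR using hnext
  let s : ℕ → Stage (r := r) K B T N C := fun n => Nat.rec s0 (fun _ s => nx s) n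
  refine ⟨fun n => (s n).G, fun n => (s n).grp, fun n => (s n).H, fun n => fx (s n),
    fun n => (s n).col, fun n => (s n).Mk, fun n => Xx (s n), ?_, fun n => ⟨(s n).stab, (s n).acy⟩⟩
  have hgen : ∃ x y : FreeGroup (Fin 2), Subgroup.closure {x, y} = ⊤ ∧ x * y ≠ y * x ∧
      H0.len x ≤ 1 ∧ H0.len y ≤ 1 := by
    refine ⟨FreeGroup.of 0, FreeGroup.of 1, ?_, of_not_commute (by decide), ?_, ?_⟩
    · have h1 : ({FreeGroup.of 0, FreeGroup.of 1} : Set (FreeGroup (Fin 2))) =
          Set.range FreeGroup.of := by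
        ext g
        simp only [Set.mem_insert_iff, Set.mem_singleton_iff, Set.mem_range]
        constructor
        · rintro (rfl | rfl)
          · exact ⟨0, rfl⟩
          · exact ⟨1, rfl⟩
        · rintro ⟨i, rfl⟩
          fin_cases i
          · exact Or.inl rfl
          · exact Or.inr rfl
      rw [h1]
      exact FreeGroup.closure_range_of _
    · exact (hlen0 0).le
    · exact (hlen0 1).le
  exact @Sq.mk r w R0 N C Φ ε (fun n => (s n).G) (fun n => (s n).grp) (fun n => (s n).H)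
    (fun n => fx (s n)) (fun n => (s n).col) (fun n => (s n).Mk) (fun n => Xx (s n))
    htf hgen (fun n => (s n).tor) (fun n => (hR (s n)).st) (fun n => (s n).ts)
    (fun n => (s n).colc) (fun n => (hR (s n)).colo) (fun n => (hR (s n)).coln)
    (fun n => (s n).mkc) (fun n => (s n).mku) (fun n => (s n).mki) (fun n => (hR (s n)).mka)

end Pool.Agent.H319.F3
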